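import Mathlib

namespace Pool.Agent.Results.MP_f73150_nt.NineConsecutive

/-- `A` is (the set of terms of) a complete sequence in the interval `(m, m+k]`:
its elements lie in the interval, they are pairwise coprime, and every integer of the
interval has a common factor `> 1` with some element of `A`. -/
def IsComplete (m k : ℕ) (A : Finset ℕ) : Prop :=
  A ⊆ Finset.Ioc m (m + k) ∧
  (∀ a ∈ A, ∀ b ∈ A, a ≠ b → Nat.gcd a b = 1) ∧
  (∀ n ∈ Finset.Ioc m (m + k), ∃ a ∈ A, 1 < Nat.gcd n a)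

/-- `l` is the length of some complete sequence in `(m, m+k]` for some `m ≥ 0`. -/
def IsLength (k l : ℕ) : Prop :=
  ∃ (m : ℕ) (A : Finset ℕ), IsComplete m k A ∧ A.card = l

private theorem cop (t a b : ℕ) (hab : a < b) (hb : b ≤ a + 10)
    (h2 : ¬ (2 ∣ a ∧ 2 ∣ b)) (h3 : ¬ (3 ∣ a ∧ 3 ∣ b)) (h5 : ¬ (5 ∣ a ∧ 5 ∣ b))
    (h7 : ¬ (7 ∣ a ∧ 7 ∣ b)) :
    Nat.gcd (a + 210 * t) (b + 210 * t) = 1 := by
  rw [← Nat.coprime_iff_gcd_eq_one]
  rw [Nat.coprime_iff_gcd_eq_one]
  by_contra hne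
  obtain ⟨p, hp, hpd⟩ := Nat.exists_prime_and_dvd hne
  have h1 : p ∣ a + 210 * t := hpd.trans (Nat.gcd_dvd_left _ _)
  have h2' : p ∣ b + 210 * t := hpd.trans (Nat.gcd_dvd_right _ _)
  have h3' : p ∣ b - a := by
    have := Nat.dvd_sub h2' h1
    have e : b + 210 * t - (a + 210 * t) = b - a := by omega
    rwa [e] at this
  have hle : p ≤ 10 := (Nat.le_of_dvd (by omega) h3').trans (by omega)
  have hp2 := hp.two_le
  interval_cases p
  · exact h2 ⟨by omega, by omega⟩
  · exact h3 ⟨by omega, by omega⟩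
  · exact absurd hp (by norm_num)
  · exact h5 ⟨by omega, by omega⟩
  · exact absurd hp (by norm_num)
  · exact h7 ⟨by omega, by omega⟩
  · exact absurd hp (by norm_num)
  · exact absurd hp (by norm_num)
  · exact absurd hp (by norm_num)

/-- The six numbers `5, 7, 8, 9, 11, 13`, shifted by `210 t`. -/
private def S (t : ℕ) : Finset ℕ :=
  {5 + 210 * t, 7 + 210 * t, 8 + 210 * t, 9 + 210 * t, 11 + 210 * t, 13 + 210 * t}

private theorem complete (t : ℕ) : IsComplete (4 + 210 * t) 9 (S t) := by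
  refine ⟨?_, ?_, ?_⟩
  · intro x hx
    simp only [S, Finset.mem_insert, Finset.mem_singleton] at hx
    rw [Finset.mem_Ioc]
    omega
  · have key : ∀ a b : ℕ, a ∈ ({5, 7, 8, 9, 11, 13} : Finset ℕ) → b ∈ ({5, 7, 8, 9, 11, 13} : Finset ℕ) →
        a < b → Nat.gcd (a + 210 * t) (b + 210 * t) = 1 := by
      intro a b ha hb hab
      simp only [Finset.mem_insert, Finset.mem_singleton] at ha hb
      apply cop t a b hab (by omega) (by omega) (by omega) (by omega) (by omega)
    intro a ha b hb hab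
    have ea : ∃ a' ∈ ({5, 7, 8, 9, 11, 13} : Finset ℕ), a = a' + 210 * t := by
      simp only [S, Finset.mem_insert, Finset.mem_singleton] at ha
      simpa using ha
    have eb : ∃ b' ∈ ({5, 7, 8, 9, 11, 13} : Finset ℕ), b = b' + 210 * t := by
      simp only [S, Finset.mem_insert, Finset.mem_singleton] at hb
      simpa using hb
    obtain ⟨a', ha', rfl⟩ := ea
    obtain ⟨b', hb', rfl⟩ := eb
    rcases lt_or_gt_of_ne (fun h : a' = b' => hab (by rw [h])) with h | h
    · exact key a' b' ha' hb' h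
    · rw [Nat.gcd_comm]; exact key b' a' hb' ha' h
  · intro n hn
    rw [Finset.mem_Ioc] at hn
    have big : ∀ x y d : ℕ, 1 < d → 0 < x → d ∣ x → d ∣ y → 1 < Nat.gcd x y := by
      intro x y d hd hx h1 h2
      exact lt_of_lt_of_le hd (Nat.le_of_dvd (Nat.gcd_pos_of_pos_left _ hx) (Nat.dvd_gcd h1 h2))
    have hcase : n = 5 + 210 * t ∨ n = 6 + 210 * t ∨ n = 7 + 210 * t ∨ n = 8 + 210 * t ∨
        n = 9 + 210 * t ∨ n = 10 + 210 * t ∨ n = 11 + 210 * t ∨ n = 12 + 210 * t ∨
        n = 13 + 210 * t := by omega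
    rcases hcase with h | h | h | h | h | h | h | h | h
    · exact ⟨5 + 210 * t, by simp [S], by rw [h, Nat.gcd_self]; omega⟩
    · exact ⟨8 + 210 * t, by simp [S], big _ _ 2 (by omega) (by omega) (by omega) (by omega)⟩
    · exact ⟨7 + 210 * t, by simp [S], by rw [h, Nat.gcd_self]; omega⟩
    · exact ⟨8 + 210 * t, by simp [S], by rw [h, Nat.gcd_self]; omega⟩
    · exact ⟨9 + 210 * t, by simp [S], by rw [h, Nat.gcd_self]; omega⟩
    · exact ⟨5 + 210 * t, by simp [S], big _ _ 5 (by omega) (by omega) (by omega) (by omega)⟩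
    · exact ⟨11 + 210 * t, by simp [S], by rw [h, Nat.gcd_self]; omega⟩
    · exact ⟨8 + 210 * t, by simp [S], big _ _ 2 (by omega) (by omega) (by omega) (by omega)⟩
    · exact ⟨13 + 210 * t, by simp [S], by rw [h, Nat.gcd_self]; omega⟩

private theorem cardS (t : ℕ) : (S t).card = 6 := by
  unfold S
  repeat rw [Finset.card_insert_of_notMem (by simp)]
  simp

private theorem pi9 : Nat.primeCounting 9 = 4 := by decide +kernel

/-- The interval `(m, m+9]` contains a complete sequence with `π(9) + 2 = 6` terms for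
`m = 4` and for every `m ≡ 4 (mod 210)`; in particular `π(k) + 1` is not the largest
length of a complete sequence for every `k ≥ 1`. -/
theorem result :
    (∀ t : ℕ, ∃ A : Finset ℕ, IsComplete (4 + 210 * t) 9 A ∧
      A.card = Nat.primeCounting 9 + 2) ∧
    (¬ ∀ k : ℕ, 1 ≤ k → IsGreatest {l : ℕ | IsLength k l} (Nat.primeCounting k + 1)) := by
  refine ⟨fun t => ⟨S t, complete t, by rw [cardS, pi9]⟩, fun h => ?_⟩
  have h9 := (h 9 (by norm_num)).2
  have : (6 : ℕ) ≤ Nat.primeCounting 9 + 1 := h9 ⟨4 + 210 * 0, S 0, complete 0, cardS 0⟩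
  rw [pi9] at this
  omega

end Pool.Agent.Results.MP_f73150_nt.NineConsecutive
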